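import Pool.Agent.L0h50.NR.Stm

/-!
Modules COV and APX of project NR: the covering radius of the integers of a number field, and
simultaneous approximation.
-/

set_option autoImplicit false

open NumberField Module
open scoped Classical

namespace Pool.Agent.L0h17.NR

open Pool.Agent.L0h50.NR

theorem cov : S_COV := by
  intro F _ _
  let b := mixedEmbedding.latticeBasis F
  refine ⟨(∑ i, ‖b i‖) + 1, by positivity, fun α => ?_⟩
  have h1 : ((ZSpan.floor b α : Submodule.span ℤ (Set.range b)) : E F) ∈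
      Submodule.span ℤ (Set.range b) := (ZSpan.floor b α).2
  rw [mixedEmbedding.mem_span_latticeBasis] at h1
  obtain ⟨κ, hκ⟩ := h1
  refine ⟨κ, ?_⟩
  have h2 : α - ι F (κ : F) = ZSpan.fract b α := by
    rw [ZSpan.fract_apply, ← hκ]
    rfl
  rw [h2]
  exact (ZSpan.norm_fract_le b α).trans (by linarith)

theorem apx : S_APX := by
  intro F _ _ ε hε
  obtain ⟨R, hR, hcov⟩ := cov F
  have hcpt : IsCompact (Metric.closedBall (0 : E F) R) := isCompact_closedBall _ _
  obtain ⟨t, htf, ht⟩ := Metric.totallyBounded_iff.1 hcpt.totallyBounded (ε / 2)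
    (by positivity)
  refine ⟨t.ncard, fun α => ?_⟩
  choose κ hκ using fun j : ℕ => hcov ((j : E F) * α)
  have h1 : ∀ j : ℕ, ∃ y ∈ t, dist ((j : E F) * α - ι F (κ j : F)) y < ε / 2 := by
    intro j
    have h2 : (j : E F) * α - ι F (κ j : F) ∈ Metric.closedBall (0 : E F) R := by
      rw [mem_closedBall_zero_iff]
      exact hκ j
    have h3 := ht h2
    rw [Set.mem_iUnion₂] at h3
    obtain ⟨y, hy, hy'⟩ := h3
    exact ⟨y, hy, hy'⟩
  choose y hy hd using h1
  obtain ⟨i, hi, j, hj, hij, hyy⟩ := Finset.exists_ne_map_eq_of_card_lt_of_maps_to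
    (s := Finset.range (t.ncard + 1)) (t := htf.toFinset) (f := y)
    (by rw [Finset.card_range, ← Set.ncard_eq_toFinset_card t htf]; omega)
    (fun j _ => by simpa using hy j)
  rw [Finset.mem_range] at hi hj
  have key : ∀ i j : ℕ, i < j → j ≤ t.ncard → y i = y j →
      ∃ (m : ℕ) (κ : 𝓞 F), 0 < m ∧ m ≤ t.ncard ∧ ‖(m : E F) * α - ι F (κ : F)‖ ≤ ε := by
    intro i j hij hj h
    refine ⟨j - i, κ j - κ i, by omega, by omega, ?_⟩
    have h2 : ((j - i : ℕ) : E F) * α - ι F ((κ j - κ i : 𝓞 F) : F) =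
        ((j : E F) * α - ι F (κ j : F)) - ((i : E F) * α - ι F (κ i : F)) := by
      rw [Nat.cast_sub hij.le]
      push_cast
      rw [map_sub]
      ring
    rw [h2, ← dist_eq_norm]
    have h3 := hd j
    have h4 := hd i
    rw [h] at h4
    have h5 := dist_triangle_right ((j : E F) * α - ι F (κ j : F))
      ((i : E F) * α - ι F (κ i : F)) (y j)
    linarith
  rcases Nat.lt_or_gt_of_ne hij with h | h
  · exact key i j h (by omega) hyy
  · exact key j i h (by omega) hyy.symm

end Pool.Agent.L0h17.NR
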