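import Pool.Agent.L0h50.NR.Stm

/-!
Module RED1 of project NR: a minimal vector of the lattice `g (𝓞 F)²` is balanced, and the ideal of its
coordinates has a bounded norm.
-/

set_option autoImplicit false

open NumberField Module NumberField.mixedEmbedding NumberField.InfinitePlace
open scoped Classical nonZeroDivisors NNReal ENNReal

namespace Pool.Agent.L0h17.NR

open Pool.Agent.L0h50.NR

section basic

variable {F : Type} [Field F] [NumberField F]

theorem nu_le (w : InfinitePlace F) (x : E F) : normAtPlace w x ≤ ‖x‖ := by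
  rw [norm_eq_sup'_normAtPlace]
  exact Finset.le_sup' (fun w => normAtPlace w x) (Finset.mem_univ w)

theorem norm_le_of_nu {x : E F} {R : ℝ} (h : ∀ w : InfinitePlace F, normAtPlace w x ≤ R) :
    ‖x‖ ≤ R := by
  rw [norm_eq_sup'_normAtPlace]
  exact Finset.sup'_le _ _ fun w _ => h w

theorem norm_lt_of_nu {x : E F} {R : ℝ} (h : ∀ w : InfinitePlace F, normAtPlace w x < R) :
    ‖x‖ < R := by
  rw [norm_eq_sup'_normAtPlace, Finset.sup'_lt_iff]
  exact fun w _ => h w

theorem norm_mul_le' (x y : E F) : ‖x * y‖ ≤ ‖x‖ * ‖y‖ := by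
  refine norm_le_of_nu fun w => ?_
  rw [map_mul]
  exact mul_le_mul (nu_le w x) (nu_le w y) (normAtPlace_nonneg w y) (norm_nonneg x)

theorem fin_of_norm (B : ℝ) : {κ : 𝓞 F | ‖ι F (κ : F)‖ ≤ B}.Finite := by
  have h := Embeddings.finite_of_norm_le F ℂ B
  refine Set.Finite.subset (h.preimage (f := fun κ : 𝓞 F => (κ : F))
    (RingOfIntegers.coe_injective.injOn)) ?_
  intro κ hκ
  refine ⟨RingOfIntegers.isIntegral_coe κ, fun φ => ?_⟩
  have h1 := (nu_le (InfinitePlace.mk φ) (ι F (κ : F))).trans hκ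
  rwa [normAtPlace_apply, InfinitePlace.apply] at h1

/-- the norm of the image of a vector -/
noncomputable def NN (p q r s : E F) (y : 𝓞 F × 𝓞 F) : ℝ :=
  max ‖p * ι F (y.1 : F) + q * ι F (y.2 : F)‖ ‖r * ι F (y.1 : F) + s * ι F (y.2 : F)‖

theorem bd_of_NN {p q r s : E F} (hd : p * s - q * r = 1) (y : 𝓞 F × 𝓞 F) :
    ‖ι F (y.1 : F)‖ ≤ (‖s‖ + ‖q‖) * NN p q r s y ∧
    ‖ι F (y.2 : F)‖ ≤ (‖r‖ + ‖p‖) * NN p q r s y := by
  have h1 : ι F (y.1 : F) = s * (p * ι F (y.1 : F) + q * ι F (y.2 : F)) -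
      q * (r * ι F (y.1 : F) + s * ι F (y.2 : F)) := by
    linear_combination (-(ι F (y.1 : F))) * hd
  have h2 : ι F (y.2 : F) = p * (r * ι F (y.1 : F) + s * ι F (y.2 : F)) -
      r * (p * ι F (y.1 : F) + q * ι F (y.2 : F)) := by
    linear_combination (-(ι F (y.2 : F))) * hd
  have a1 : ‖p * ι F (y.1 : F) + q * ι F (y.2 : F)‖ ≤ NN p q r s y := le_max_left _ _
  have a2 : ‖r * ι F (y.1 : F) + s * ι F (y.2 : F)‖ ≤ NN p q r s y := le_max_right _ _
  constructor
  · rw [h1]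
    refine (norm_sub_le _ _).trans ?_
    rw [add_mul]
    exact add_le_add ((norm_mul_le' _ _).trans (mul_le_mul_of_nonneg_left a1 (norm_nonneg _)))
      ((norm_mul_le' _ _).trans (mul_le_mul_of_nonneg_left a2 (norm_nonneg _)))
  · rw [h2]
    refine (norm_sub_le _ _).trans ?_
    rw [add_comm ‖r‖, add_mul]
    exact add_le_add ((norm_mul_le' _ _).trans (mul_le_mul_of_nonneg_left a2 (norm_nonneg _)))
      ((norm_mul_le' _ _).trans (mul_le_mul_of_nonneg_left a1 (norm_nonneg _)))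

theorem exists_min {p q r s : E F} (hd : p * s - q * r = 1) : ∃ x : 𝓞 F × 𝓞 F, x ≠ 0 ∧
    ∀ y : 𝓞 F × 𝓞 F, y ≠ 0 → NN p q r s x ≤ NN p q r s y := by
  set B : ℝ := NN p q r s (1, 0) with hB
  have hfin : {y : 𝓞 F × 𝓞 F | y ≠ 0 ∧ NN p q r s y ≤ B}.Finite := by
    refine Set.Finite.subset ((fin_of_norm ((‖s‖ + ‖q‖) * B)).prod
      (fin_of_norm ((‖r‖ + ‖p‖) * B))) ?_
    rintro y ⟨-, hy⟩
    obtain ⟨h1, h2⟩ := bd_of_NN hd y
    exact ⟨h1.trans (mul_le_mul_of_nonneg_left hy (by positivity)),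
      h2.trans (mul_le_mul_of_nonneg_left hy (by positivity))⟩
  obtain ⟨x, hx, hmin⟩ := Set.exists_min_image _ (NN p q r s) hfin
    ⟨((1 : 𝓞 F), (0 : 𝓞 F)), by simp, le_refl _⟩
  refine ⟨x, hx.1, fun y hy => ?_⟩
  by_cases h : NN p q r s y ≤ B
  · exact hmin y ⟨hy, h⟩
  · exact hx.2.trans (le_of_lt (not_le.1 h))

theorem NN_pos {p q r s : E F} (hd : p * s - q * r = 1) (x : 𝓞 F × 𝓞 F) (hx : x ≠ 0) :
    0 < NN p q r s x := by
  have h0 : 0 ≤ NN p q r s x := (norm_nonneg _).trans (le_max_left _ _)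
  rcases h0.lt_or_eq with h | h
  · exact h
  · exfalso
    apply hx
    obtain ⟨h1, h2⟩ := bd_of_NN hd x
    rw [← h, mul_zero] at h1 h2
    have e1 := norm_le_zero_iff.1 h1
    have e2 := norm_le_zero_iff.1 h2
    rw [map_eq_zero_iff _ (mixedEmbedding_injective F)] at e1 e2
    ext
    · exact e1
    · exact e2

theorem nu_mul_apply (w : InfinitePlace F) (a : F) (x : E F) :
    normAtPlace w (ι F a * x) = w a * normAtPlace w x := by
  rw [map_mul]
  congr 1
  exact normAtPlace_apply w a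

/-- multiplication of a vector by a number which is small at all places -/
theorem NN_smul_lt {p q r s : E F} {x y : 𝓞 F × 𝓞 F} {a : F} (h1 : (y.1 : F) = a * x.1)
    (h2 : (y.2 : F) = a * x.2) {l : ℝ}
    (h : ∀ w : InfinitePlace F, w a * normAtPlace w (p * ι F (x.1 : F) + q * ι F (x.2 : F)) < l ∧
      w a * normAtPlace w (r * ι F (x.1 : F) + s * ι F (x.2 : F)) < l) : NN p q r s y < l := by
  have e1 : p * ι F (y.1 : F) + q * ι F (y.2 : F) =
      ι F a * (p * ι F (x.1 : F) + q * ι F (x.2 : F)) := by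
    rw [h1, h2, map_mul, map_mul]; ring
  have e2 : r * ι F (y.1 : F) + s * ι F (y.2 : F) =
      ι F a * (r * ι F (x.1 : F) + s * ι F (x.2 : F)) := by
    rw [h1, h2, map_mul, map_mul]; ring
  rw [NN, e1, e2, max_lt_iff]
  constructor
  · refine norm_lt_of_nu fun w => ?_
    rw [nu_mul_apply]
    exact (h w).1
  · refine norm_lt_of_nu fun w => ?_
    rw [nu_mul_apply]
    exact (h w).2

end basic

section balanced

variable (F : Type) [Field F] [NumberField F]

/-- an integer which is small at all places but one -/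
theorem exists_small (w₀ : InfinitePlace F) : ∃ (B : ℝ) (a : 𝓞 F), 0 < B ∧ a ≠ 0 ∧
    (∀ w, w ≠ w₀ → w (a : F) < 1 / 2) ∧ w₀ (a : F) < B := by
  have htop : minkowskiBound F ↑1 < ⊤ := minkowskiBound_lt_top F _
  obtain ⟨B, hB⟩ : ∃ B : ℝ≥0, minkowskiBound F ↑1 < (convexBodyLTFactor F) * B := by
    refine ⟨(minkowskiBound F ↑1).toNNReal + 1, ?_⟩
    have h1 : minkowskiBound F ↑1 < ((minkowskiBound F ↑1).toNNReal + 1 : ℝ≥0) := by
      rw [ENNReal.coe_add, ENNReal.coe_toNNReal htop.ne, ENNReal.coe_one]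
      exact ENNReal.lt_add_right htop.ne one_ne_zero
    refine h1.trans_le ?_
    have h2 : (1 : ℝ≥0∞) ≤ (convexBodyLTFactor F : ℝ≥0∞) := by
      exact_mod_cast one_le_convexBodyLTFactor F
    exact le_mul_of_one_le_left bot_le h2
  obtain ⟨g, hg1, hg2⟩ := adjust_f F (f := fun _ => (1 / 2 : ℝ≥0)) (w₁ := w₀) B
    (fun w _ => by norm_num)
  obtain ⟨a, ha, ha'⟩ := exists_ne_zero_mem_ringOfIntegers_lt F (f := g)
    (by rw [convexBodyLT_volume, hg2]; exact hB)
  refine ⟨(g w₀ : ℝ) + 1, a, by positivity, ha, fun w hw => ?_, ?_⟩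
  · have h := ha' w
    rw [hg1 w hw] at h
    simpa using h
  · exact (ha' w₀).trans (by linarith)

theorem exists_small' : ∃ B : ℝ, 0 < B ∧ ∀ w₀ : InfinitePlace F, ∃ a : 𝓞 F, a ≠ 0 ∧
    (∀ w, w ≠ w₀ → w (a : F) < 1 / 2) ∧ w₀ (a : F) < B := by
  choose B a hB ha h1 h2 using exists_small F
  refine ⟨∑ w, B w, ?_, fun w₀ => ⟨a w₀, ha w₀, h1 w₀, (h2 w₀).trans_le ?_⟩⟩
  · exact Finset.sum_pos (fun w _ => hB w) Finset.univ_nonempty
  · exact Finset.single_le_sum (fun w _ => (hB w).le) (Finset.mem_univ w₀)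

end balanced

section ideal

variable (F : Type) [Field F] [NumberField F]

theorem exists_bound : ∃ N : ℕ, ∀ I : Ideal (𝓞 F), I ≠ ⊥ →
    (¬ ∃ a : F, a ≠ 0 ∧ (∀ x ∈ I, ∃ y : 𝓞 F, (y : F) = a * x) ∧ ∀ w : InfinitePlace F, w a < 1) →
    Ideal.absNorm I ≤ N := by
  set V : ℝ≥0∞ := MeasureTheory.volume (ZSpan.fundamentalDomain (latticeBasis F)) *
    (2 : ℝ≥0∞) ^ (finrank ℝ (mixedSpace F)) with hV
  have hVt : V < ⊤ := ENNReal.mul_lt_top
    (ZSpan.fundamentalDomain_isBounded _).measure_lt_top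
    (ENNReal.pow_lt_top ENNReal.ofNat_lt_top)
  refine ⟨⌈V.toReal⌉₊, fun I hI hno => ?_⟩
  have hI0 : (I : FractionalIdeal (𝓞 F)⁰ F) ≠ 0 := FractionalIdeal.coeIdeal_ne_zero.2 hI
  set J : (FractionalIdeal (𝓞 F)⁰ F)ˣ := (Units.mk0 (I : FractionalIdeal (𝓞 F)⁰ F) hI0)⁻¹ with hJ
  have hJv : (J : FractionalIdeal (𝓞 F)⁰ F) = (I : FractionalIdeal (𝓞 F)⁰ F)⁻¹ := by
    rw [hJ, Units.val_inv_eq_inv_val, Units.val_mk0]
  have h1 : ¬ minkowskiBound F J < MeasureTheory.volume (convexBodyLT F (fun _ => (1 : ℝ≥0))) := by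
    intro h
    obtain ⟨a, haJ, ha, hw⟩ := exists_ne_zero_mem_ideal_lt F J h
    apply hno
    refine ⟨a, ha, fun x hx => ?_, fun w => by simpa using hw w⟩
    rw [hJv, FractionalIdeal.mem_inv_iff hI0] at haJ
    have h2 := haJ (x : F) (FractionalIdeal.mem_coeIdeal_of_mem _ hx)
    rw [FractionalIdeal.mem_one_iff] at h2
    exact h2
  rw [not_lt, convexBodyLT_volume] at h1
  simp only [one_pow, Finset.prod_const_one, ENNReal.coe_one, mul_one] at h1
  have h3 : (1 : ℝ≥0∞) ≤ ENNReal.ofReal (FractionalIdeal.absNorm (J : FractionalIdeal (𝓞 F)⁰ F)) * V := by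
    have h2 : (1 : ℝ≥0∞) ≤ (convexBodyLTFactor F : ℝ≥0∞) := by
      exact_mod_cast one_le_convexBodyLTFactor F
    refine (h2.trans h1).trans (le_of_eq ?_)
    rw [minkowskiBound, volume_fundamentalDomain_fractionalIdealLatticeBasis, hV, mul_assoc]
  have hN : (0 : ℝ) < (Ideal.absNorm I : ℝ) := by
    exact_mod_cast Nat.pos_of_ne_zero (fun h => hI (Ideal.absNorm_eq_zero_iff.1 h))
  have h4 : (FractionalIdeal.absNorm (J : FractionalIdeal (𝓞 F)⁰ F) : ℚ) =
      ((Ideal.absNorm I : ℕ) : ℚ)⁻¹ := by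
    rw [hJv, map_inv₀, FractionalIdeal.coeIdeal_absNorm]
  rw [h4] at h3
  have h5 : (1 : ℝ) ≤ (Ideal.absNorm I : ℝ)⁻¹ * V.toReal := by
    have h6 := (ENNReal.toReal_le_toReal ENNReal.one_ne_top
      (ENNReal.mul_lt_top ENNReal.ofReal_lt_top hVt).ne).2 h3
    rw [ENNReal.toReal_one, ENNReal.toReal_mul, ENNReal.toReal_ofReal (by positivity)] at h6
    push_cast at h6
    exact h6
  have h7 : (Ideal.absNorm I : ℝ) ≤ V.toReal := by
    rw [inv_mul_eq_div, le_div_iff₀ hN, one_mul] at h5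
    exact h5
  exact_mod_cast h7.trans (Nat.le_ceil _)

end ideal

theorem red1 : S_RED1 := by
  intro F _ _
  obtain ⟨B, hB, hsm⟩ := exists_small' F
  obtain ⟨N, hN⟩ := exists_bound F
  refine ⟨1 / B, N.factorial, by positivity, N.factorial_pos, ?_⟩
  intro p q r s hd
  obtain ⟨x, hx, hmin⟩ := exists_min hd
  set l : ℝ := NN p q r s x with hl
  have hlp : 0 < l := NN_pos hd x hx
  have z1 : ‖p * ι F (x.1 : F) + q * ι F (x.2 : F)‖ ≤ l := le_max_left _ _
  have z2 : ‖r * ι F (x.1 : F) + s * ι F (x.2 : F)‖ ≤ l := le_max_right _ _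
  -- the balance
  have hbal : ∀ w₀ : InfinitePlace F, 1 / B * l ≤
      max (normAtPlace w₀ (p * ι F (x.1 : F) + q * ι F (x.2 : F)))
        (normAtPlace w₀ (r * ι F (x.1 : F) + s * ι F (x.2 : F))) := by
    intro w₀
    by_contra hc
    rw [not_le, max_lt_iff] at hc
    obtain ⟨a, ha, ha1, ha2⟩ := hsm w₀
    have key : ∀ (w : InfinitePlace F) (z : E F), ‖z‖ ≤ l → normAtPlace w₀ z < 1 / B * l →
        w (a : F) * normAtPlace w z < l := by
      intro w z hz hz0
      by_cases hw : w = w₀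
      · subst hw
        calc w (a : F) * normAtPlace w z ≤ B * normAtPlace w z :=
              mul_le_mul_of_nonneg_right ha2.le (normAtPlace_nonneg _ _)
          _ < B * (1 / B * l) := mul_lt_mul_of_pos_left hz0 hB
          _ = l := by field_simp
      · calc w (a : F) * normAtPlace w z ≤ 1 / 2 * l :=
              mul_le_mul (ha1 w hw).le ((nu_le w z).trans hz) (normAtPlace_nonneg _ _) (by norm_num)
          _ < l := by linarith
    have h1 : NN p q r s (a * x.1, a * x.2) < l :=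
      NN_smul_lt (x := x) (a := (a : F)) (by simp) (by simp)
        (fun w => ⟨key w _ z1 hc.1, key w _ z2 hc.2⟩)
    have h2 : ((a * x.1, a * x.2) : 𝓞 F × 𝓞 F) ≠ 0 := by
      intro h
      apply hx
      rw [Prod.ext_iff] at h
      ext
      · have := (mul_eq_zero.1 h.1).resolve_left ha
        rw [this]; rfl
      · have := (mul_eq_zero.1 h.2).resolve_left ha
        rw [this]; rfl
    exact absurd (hmin _ h2) (not_le.2 h1)
  -- the ideal
  have hI : Ideal.absNorm (Ideal.span {x.1, x.2}) ≤ N := by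
    apply hN
    · intro h
      rw [Ideal.span_eq_bot] at h
      apply hx
      ext
      · rw [h x.1 (by simp)]; rfl
      · rw [h x.2 (by simp)]; rfl
    · rintro ⟨a, ha, hint, hw⟩
      obtain ⟨y1, hy1⟩ := hint x.1 (Ideal.subset_span (by simp))
      obtain ⟨y2, hy2⟩ := hint x.2 (Ideal.subset_span (by simp))
      have key : ∀ (w : InfinitePlace F) (z : E F), ‖z‖ ≤ l → w a * normAtPlace w z < l := by
        intro w z hz
        have h1 : 0 ≤ w a := apply_nonneg w a
        calc w a * normAtPlace w z ≤ w a * l :=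
              mul_le_mul_of_nonneg_left ((nu_le w z).trans hz) h1
          _ < 1 * l := mul_lt_mul_of_pos_right (hw w) hlp
          _ = l := one_mul l
      have h1 : NN p q r s (y1, y2) < l :=
        NN_smul_lt (x := x) (a := a) hy1 hy2 (fun w => ⟨key w _ z1, key w _ z2⟩)
      have h2 : ((y1, y2) : 𝓞 F × 𝓞 F) ≠ 0 := by
        intro h
        apply hx
        rw [Prod.ext_iff] at h
        have e1 : y1 = 0 := h.1
        have e2 : y2 = 0 := h.2
        rw [e1] at hy1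
        rw [e2] at hy2
        ext
        · have := (mul_eq_zero.1 hy1.symm).resolve_left ha
          rw [this]; rfl
        · have := (mul_eq_zero.1 hy2.symm).resolve_left ha
          rw [this]; rfl
      exact absurd (hmin _ h2) (not_le.2 h1)
  have hpos : 0 < Ideal.absNorm (Ideal.span {x.1, x.2}) := by
    refine Nat.pos_of_ne_zero fun h => ?_
    rw [Ideal.absNorm_eq_zero_iff, Ideal.span_eq_bot] at h
    apply hx
    ext
    · rw [h x.1 (by simp)]; rfl
    · rw [h x.2 (by simp)]; rfl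
  have hmem : ((N.factorial : ℕ) : 𝓞 F) ∈ Ideal.span {x.1, x.2} := by
    obtain ⟨m, hm⟩ := Nat.dvd_factorial hpos hI
    rw [hm, Nat.cast_mul]
    exact Ideal.mul_mem_right _ _ (Ideal.absNorm_mem _)
  rw [Ideal.mem_span_pair] at hmem
  obtain ⟨a, b, hab⟩ := hmem
  refine ⟨x.1, x.2, -b, a, l, hlp, z1, z2, fun w => ?_, fun w => ?_, fun y₁ y₂ hy => ?_, ?_⟩
  · have h := hbal w.1
    rw [normAtPlace_apply_of_isReal w.2, normAtPlace_apply_of_isReal w.2] at h
    exact h
  · have h := hbal w.1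
    rw [normAtPlace_apply_of_isComplex w.2, normAtPlace_apply_of_isComplex w.2] at h
    exact h
  · refine hmin (y₁, y₂) fun h => ?_
    rw [Prod.ext_iff] at h
    rcases hy with hy | hy
    · exact hy h.1
    · exact hy h.2
  · rw [← hab]; ring

end Pool.Agent.L0h17.NR
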